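import Mathlib
open Set Cardinal
namespace Pool.Agent.H.MP_ebc4cb_lc

variable {M : Type} [LinearOrder M]

lemma bdd (hM : ℵ₁ < Order.cof M) {s : Set M} (hs : #s ≤ ℵ₁) : ∃ d, ∀ x ∈ s, x < d := by
  rw [← not_isCofinal_iff]
  exact fun h => absurd ((Order.cof_le h).trans hs) (not_le.mpr hM)

def gr (e : M → M → ℕ) (i : ℕ) : SimpleGraph M where
  Adj a b := (a < b ∧ e a b = i) ∨ (b < a ∧ e b a = i)
  symm := ⟨fun _ _ h => h.symm⟩
  loopless := ⟨fun a h => by rcases h with h | h <;> exact lt_irrefl _ h.1⟩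

lemma comp (hM : ℵ₁ < Order.cof M) (e : M → M → ℕ) :
    ∃ i ρ, ∀ ξ, ∃ a b, ξ < a ∧ ξ < b ∧ (gr e i).Adj a b ∧ (gr e i).Reachable ρ a := by
  by_contra hc
  push Not at hc
  choose b hb using hc
  have hB : ∀ ρ, ∃ d, ∀ i, b i ρ < d := by
    intro ρ
    obtain ⟨d, hd⟩ := bdd hM (s := range fun i => b i ρ)
      ((le_aleph0_iff_set_countable.mpr (countable_range _)).trans aleph0_lt_aleph_one.le)
    exact ⟨d, fun i => hd _ ⟨i, rfl⟩⟩
  choose B hB using hB
  obtain ⟨U, hU⟩ := zorn_subset {U : Set M | ∀ x ∈ U, ∀ y ∈ U, x < y → B x ≤ y} (by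
    intro c hc hch
    refine ⟨⋃₀ c, ?_, fun s hs => subset_sUnion_of_mem hs⟩
    rintro x ⟨s, hs, hx⟩ y ⟨t, ht, hy⟩ hxy
    rcases hch.total hs ht with h | h
    · exact hc ht x (h hx) y hy hxy
    · exact hc hs x hx y (h hy) hxy)
  have hUc : ℵ₁ ≤ #U := by
    by_contra hlt
    have h1 : U.Countable := by
      rw [← le_aleph0_iff_set_countable, ← Order.lt_succ_iff, succ_aleph0]
      exact not_le.mp hlt
    obtain ⟨d, hd⟩ := bdd hM (s := U ∪ B '' U)
      ((le_aleph0_iff_set_countable.mpr (h1.union (h1.image B))).trans aleph0_lt_aleph_one.le)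
    have h2 : insert d U ⊆ U := by
      refine hU.2 ?_ (subset_insert _ _)
      rintro x (rfl | hx) y (rfl | hy) hxy
      · exact absurd hxy (lt_irrefl _)
      · exact absurd (hxy.trans (hd y (Or.inl hy))) (lt_irrefl _)
      · exact (hd _ (Or.inr ⟨x, hx, rfl⟩)).le
      · exact hU.1 x hx y hy hxy
    exact lt_irrefl _ (hd d (Or.inl (h2 (mem_insert _ _))))
  obtain ⟨T, hT, hT1⟩ := le_mk_iff_exists_subset.mp hUc
  obtain ⟨d, hd⟩ := bdd hM hT1.le
  have key : ∀ x ∈ T, ∀ y ∈ T, x < y → e x d ≠ e y d := by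
    intro x hx y hy hxy h
    have h1 : b (e x d) x < y := (hB x _).trans_le (hU.1 x (hT hx) y (hT hy) hxy)
    have h2 : (gr e (e x d)).Adj x d := Or.inl ⟨hd x hx, rfl⟩
    have h3 : (gr e (e x d)).Adj y d := Or.inl ⟨hd y hy, h.symm⟩
    exact hb (e x d) x y d h1 (h1.trans (hd y hy)) h3 (h2.reachable.trans h3.reachable.symm)
  have hinj : InjOn (fun x => e x d) T := by
    intro x hx y hy h
    rcases lt_trichotomy x y with h1 | h1 | h1
    · exact absurd h (key x hx y hy h1)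
    · exact h1
    · exact absurd h.symm (key y hy x hx h1)
  have h5 : T.Countable := countable_of_injective_of_countable_image hinj (to_countable _)
  exact absurd (hT1 ▸ le_aleph0_iff_set_countable.mpr h5) (not_le.mpr aleph0_lt_aleph_one)

def Wk (G : SimpleGraph M) (a c : M) (s : ℕ → M) : Prop :=
  s 0 = a ∧ (∀ n, G.Adj (s n) (s (n + 1))) ∧ ∀ N, ∃ n ≥ N, s n = c

def bounce (a b : M) (n : ℕ) : M := if Even n then a else b

omit [LinearOrder M] in
lemma bounce_wk {G : SimpleGraph M} {a b : M} (h : G.Adj a b) : Wk G a b (bounce a b) := by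
  refine ⟨by simp [bounce], fun n => ?_, fun N => ⟨2 * N + 1, by omega, by simp [bounce]⟩⟩
  by_cases hn : Even n
  · simp [bounce, hn, Nat.even_add_one, h]
  · simp [bounce, hn, Nat.even_add_one, h.symm]

omit [LinearOrder M] in
lemma walk {G : SimpleGraph M} {a b c : M} (h : G.Reachable a b) (h' : G.Adj b c) :
    ∃ s, Wk G a c s := by
  rw [SimpleGraph.reachable_iff_reflTransGen] at h
  induction h using Relation.ReflTransGen.head_induction_on with
  | refl => exact ⟨_, bounce_wk h'⟩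
  | head h1 _ ih =>
    rename_i x y _
    obtain ⟨s, h2, h3, h4⟩ := ih
    refine ⟨fun n => Nat.casesOn n x s, rfl, fun n => ?_, fun N => ?_⟩
    · cases n with
      | zero => simpa [h2] using h1
      | succ n => exact h3 n
    · obtain ⟨n, h5, h6⟩ := h4 N
      exact ⟨n + 1, by omega, h6⟩

lemma canon {V : Type} (p : V → M) (ν : M → Cardinal) (hreg : ∀ β, (ν β).IsRegular)
    (hν : ∀ β, ν β ≤ #(p ⁻¹' {β})) (hbig : ∀ β, 2 ^ (ℵ₀ + #M + #{v | p v < β}) < ν β)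
    (d : V → V → ℕ) : ∃ (A : M → Set V) (e : M → M → ℕ), (∀ β, A β ⊆ p ⁻¹' {β}) ∧
      (∀ β, ν β ≤ #(A β)) ∧ ∀ α β, α < β → ∀ x ∈ A α, ∀ y ∈ A β, d x y = e α β := by
  have hpow : ∀ (β) (c : Cardinal), c ≤ ℵ₀ + #M + #{v | p v < β} → ℵ₀ ^ c < (ν β).ord.cof := by
    intro β c hc
    rw [(hreg β).cof_ord]
    refine lt_of_le_of_lt ?_ (hbig β)
    have h1 : ℵ₀ ≤ ℵ₀ + #M + #{v | p v < β} := le_self_add.trans le_self_add
    calc ℵ₀ ^ c ≤ (ℵ₀ + #M + #{v | p v < β}) ^ (ℵ₀ + #M + #{v | p v < β}) :=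
          (power_le_power_left aleph0_ne_zero hc).trans (power_le_power_right h1)
      _ = _ := power_self_eq h1
  have s1 : ∀ β, ∃ (F : V → ℕ) (B : Set V), B ⊆ p ⁻¹' {β} ∧ ν β ≤ #B ∧
      ∀ y ∈ B, ∀ x, p x < β → d x y = F x := by
    intro β
    obtain ⟨a, t, h1, h2, h3⟩ := infinite_pigeonhole_set (s := p ⁻¹' {β})
      (fun y => fun x : {v | p v < β} => d x y) (ν β) (hν β) (hreg β).aleph0_le
      (by simpa using hpow β _ le_add_self)
    refine ⟨fun x => if h : p x < β then a ⟨x, h⟩ else 0, t, h1, h2, fun y hy x hx => ?_⟩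
    simp only [hx, dif_pos]
    exact congrFun (h3 hy) ⟨x, hx⟩
  choose F B hB1 hB2 hB3 using s1
  have s2 : ∀ α, ∃ (E : M → ℕ) (A : Set V), A ⊆ B α ∧ ν α ≤ #A ∧ ∀ x ∈ A, ∀ β, F β x = E β := by
    intro α
    obtain ⟨a, t, h1, h2, h3⟩ := infinite_pigeonhole_set (s := B α)
      (fun x => fun β : M => F β x) (ν α) (hB2 α) (hreg α).aleph0_le
      (by simpa using hpow α _ (le_add_self.trans le_self_add))
    exact ⟨a, t, h1, h2, fun x hx β => congrFun (h3 hx) β⟩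
  choose E A hA1 hA2 hA3 using s2
  refine ⟨A, E, fun β => (hA1 β).trans (hB1 β), hA2, fun α β h x hx y hy => ?_⟩
  have h1 : p x = α := hB1 α (hA1 α hx)
  rw [hB3 β y (hA1 β hy) x (h1 ▸ h), hA3 α x hx]

end Pool.Agent.H.MP_ebc4cb_lc
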