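import Pool.Agent.H.MP_ebc4cb_lc.Core
open Set Cardinal
namespace Pool.Agent.H.MP_ebc4cb_lc

variable {M : Type} [LinearOrder M]

abbrev X (V : Type) := WithBot (WithTop V)

def Ok {V : Type} (p : V → M) (ξ : M) (η : X V) : Prop := ∀ v : V, η = ((v : WithTop V) : X V) → p v = ξ

lemma skeleton [WellFoundedLT M] {V : Type} (p : V → M) (G : SimpleGraph M) (ρ : M)
    (h : ∀ ξ, ∃ a b, ξ < a ∧ ξ < b ∧ G.Adj a b ∧ G.Reachable ρ a) [Nonempty M] :
    ∃ (W : Type) (_ : LinearOrder W) (_ : WellFoundedLT W) (f : W → M), #V ≤ #W ∧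
      (∀ u v : W, u < v → ∃ w, u ≤ w ∧ w < v ∧ G.Adj (f w) (f v)) ∧
      ∀ γ, #(f ⁻¹' {γ}) ≤ #M * (#{v | p v < γ} + 1 + 1) * ℵ₀ := by
  classical
  obtain ⟨_, _⟩ := exists_wellFoundedLT V
  choose a b ha hb hab hρ using h
  obtain ⟨ξ0⟩ := ‹Nonempty M›
  have hR : ∀ ξ, ∃ s, Wk G (a ξ) (a ξ0) s := fun ξ =>
    walk (((hρ ξ).symm.trans (hρ ξ0)).trans (hab ξ0).reachable) (hab ξ0).symm
  have hD' : ∀ ξ, ∃ s, Wk G (b ξ0) (b ξ) s := fun ξ =>
    walk ((hab ξ0).reachable.symm.trans ((hρ ξ0).symm.trans (hρ ξ))) (hab ξ)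
  choose D hD using hD'
  choose R hR using hR
  let s : M → X V → ℕ → M := fun ξ η =>
    if η = ⊥ then D ξ else if η = ⊤ then R ξ else bounce (a ξ) (b ξ)
  have hbt : (⊤ : X V) ≠ ⊥ := top_ne_bot
  have s_adj : ∀ ξ η n, G.Adj (s ξ η n) (s ξ η (n + 1)) := by
    intro ξ η n
    simp only [s]
    split_ifs
    · exact (hD ξ).2.1 n
    · exact (hR ξ).2.1 n
    · exact (bounce_wk (hab ξ)).2.1 n
  have s_zero : ∀ ξ η, η ≠ ⊥ → s ξ η 0 = a ξ := by
    intro ξ η hη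
    simp only [s, hη, if_false]
    split_ifs
    · exact (hR ξ).1
    · exact (bounce_wk (hab ξ)).1
  have s_inf : ∀ ξ η, η ≠ ⊤ → ∀ N, ∃ n ≥ N, s ξ η n = b ξ := by
    intro ξ η hη
    simp only [s, hη, if_false]
    split_ifs
    · exact (hD ξ).2.2
    · exact (bounce_wk (hab ξ)).2.2
  have s_bot : ∀ ξ, s ξ ⊥ 0 = b ξ0 := fun ξ => by simp only [s, if_true]; exact (hD ξ).1
  have s_top : ∀ ξ N, ∃ n ≥ N, s ξ ⊤ n = a ξ0 := fun ξ => by
    simp only [s, hbt, if_false, if_true]; exact (hR ξ).2.2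
  have ok_bot : ∀ ξ, Ok p ξ ⊥ := fun ξ v h => absurd h WithBot.bot_ne_coe
  have ok_top : ∀ ξ, Ok p ξ ⊤ := fun ξ v h =>
    absurd (WithBot.coe_injective h) WithTop.top_ne_coe
  let W := {q : (M ×ₗ X V) ×ₗ ℕ // Ok p (ofLex (ofLex q).1).1 (ofLex (ofLex q).1).2}
  let mk : ∀ ξ η, Ok p ξ η → ℕ → W := fun ξ η h n => ⟨toLex (toLex (ξ, η), n), h⟩
  have mk_lt : ∀ ξ η h n ξ' η' h' n', mk ξ η h n < mk ξ' η' h' n' ↔
      (ξ < ξ' ∨ ξ = ξ' ∧ η < η') ∨ (ξ = ξ' ∧ η = η') ∧ n < n' := by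
    intro ξ η h n ξ' η' h' n'
    refine Subtype.mk_lt_mk.trans ?_
    simp only [Prod.Lex.toLex_lt_toLex, toLex_inj, Prod.mk.injEq]
  have mk_le : ∀ ξ η h n ξ' η' h' n', mk ξ η h n ≤ mk ξ' η' h' n' ↔
      (ξ < ξ' ∨ ξ = ξ' ∧ η < η') ∨ (ξ = ξ' ∧ η = η') ∧ n ≤ n' := by
    intro ξ η h n ξ' η' h' n'
    refine Subtype.mk_le_mk.trans ?_
    simp only [Prod.Lex.toLex_le_toLex, Prod.Lex.toLex_lt_toLex, toLex_inj,
      Prod.mk.injEq]
  have mk_surj : ∀ w : W, ∃ ξ η h n, w = mk ξ η h n := fun w => ⟨_, _, w.2, _, rfl⟩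
  let f : W → M := fun w => s (ofLex (ofLex w.1).1).1 (ofLex (ofLex w.1).1).2 (ofLex w.1).2
  have f_mk : ∀ ξ η h n, f (mk ξ η h n) = s ξ η n := fun _ _ _ _ => rfl
  refine ⟨W, inferInstance, inferInstance, f, ?_, ?_, ?_⟩
  · refine mk_le_of_injective (f := fun v => mk (p v) ((v : WithTop V) : X V)
      (fun v' h => by rw [WithTop.coe_injective (WithBot.coe_injective h)]) 0) ?_
    intro v v' h
    have h1 := congrArg (fun w : W => (ofLex (ofLex w.1).1).2) h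
    exact WithTop.coe_injective (WithBot.coe_injective h1)
  · intro u v huv
    obtain ⟨ξ', η', h', n', rfl⟩ := mk_surj u
    obtain ⟨ξ, η, h, n, rfl⟩ := mk_surj v
    rw [mk_lt] at huv
    cases n with
    | succ m =>
      refine ⟨mk ξ η h m, ?_, ?_, s_adj ξ η m⟩
      · rw [mk_le]
        exact huv.imp_right fun h => ⟨h.1, by omega⟩
      · rw [mk_lt]
        exact Or.inr ⟨⟨rfl, rfl⟩, by omega⟩
    | zero =>
      rcases huv with (h1 | ⟨rfl, h1⟩) | h1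
      · by_cases hη : η = ⊥
        · subst hη
          obtain ⟨N, hN, h2⟩ := s_top ξ' n'
          refine ⟨mk ξ' ⊤ (ok_top _) N, ?_, ?_, ?_⟩
          · rw [mk_le]
            rcases (le_top : η' ≤ ⊤).lt_or_eq with h3 | h3
            · exact Or.inl (Or.inr ⟨rfl, h3⟩)
            · exact Or.inr ⟨⟨rfl, h3⟩, hN⟩
          · rw [mk_lt]
            exact Or.inl (Or.inl h1)
          · rw [f_mk, f_mk, h2, s_bot]
            exact hab ξ0
        · obtain ⟨N, -, h2⟩ := s_inf ξ ⊥ hbt.symm 0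
          refine ⟨mk ξ ⊥ (ok_bot _) N, ?_, ?_, ?_⟩
          · rw [mk_le]
            exact Or.inl (Or.inl h1)
          · rw [mk_lt]
            exact Or.inl (Or.inr ⟨rfl, bot_lt_iff_ne_bot.mpr hη⟩)
          · rw [f_mk, f_mk, h2, s_zero _ _ hη]
            exact (hab ξ).symm
      · obtain ⟨N, hN, h2⟩ := s_inf ξ' η' h1.ne_top n'
        refine ⟨mk ξ' η' h' N, ?_, ?_, ?_⟩
        · rw [mk_le]
          exact Or.inr ⟨⟨rfl, rfl⟩, hN⟩
        · rw [mk_lt]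
          exact Or.inl (Or.inr ⟨rfl, h1⟩)
        · rw [f_mk, f_mk, h2, s_zero _ _ h1.ne_bot]
          exact (hab ξ').symm
      · exact absurd h1.2 (by omega)
  · intro γ
    let S : Set (X V) := insert ⊥ (insert ⊤ ((fun v : V => ((v : WithTop V) : X V)) '' {v | p v < γ}))
    have hS : #S ≤ #{v | p v < γ} + 1 + 1 :=
      mk_insert_le.trans (add_le_add_left (mk_insert_le.trans (add_le_add_left mk_image_le _)) _)
    have hmem : ∀ w : f ⁻¹' {γ}, (ofLex (ofLex w.1.1).1).2 ∈ S := by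
      rintro ⟨w, hw⟩
      obtain ⟨ξ, η, h, n, rfl⟩ := mk_surj w
      change η ∈ S
      by_cases h1 : η = ⊥
      · exact Or.inl h1
      by_cases h2 : η = ⊤
      · exact Or.inr (Or.inl h2)
      obtain ⟨y, rfl⟩ := WithBot.ne_bot_iff_exists.mp h1
      obtain ⟨v, rfl⟩ := WithTop.ne_top_iff_exists.mp (show y ≠ ⊤ from fun h => h2 (h ▸ rfl))
      refine Or.inr (Or.inr ⟨v, ?_, rfl⟩)
      have h3 : s ξ ((v : WithTop V) : X V) n = γ := hw
      simp only [s, h1, h2, if_false, bounce] at h3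
      rw [mem_ofPred_eq, h v rfl, ← h3]
      split_ifs
      · exact ha ξ
      · exact hb ξ
    have h1 : #(f ⁻¹' {γ}) ≤ #((M × S) × ℕ) := by
      refine mk_le_of_injective (f := fun w => (((ofLex (ofLex w.1.1).1).1, ⟨_, hmem w⟩),
        (ofLex w.1.1).2)) ?_
      rintro ⟨w, hw⟩ ⟨w', hw'⟩ h
      obtain ⟨ξ, η, h1, n, rfl⟩ := mk_surj w
      obtain ⟨ξ', η', h1', n', rfl⟩ := mk_surj w'
      simp only [Prod.mk.injEq, Subtype.mk.injEq, mk, ofLex_toLex] at h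
      obtain ⟨⟨rfl, rfl⟩, rfl⟩ := h
      rfl
    refine h1.trans ?_
    simp only [mk_prod, lift_id, mk_nat]
    gcongr

noncomputable def nu (M : Type) [LinearOrder M] [WellFoundedLT M] : M → Cardinal.{0} :=
  wellFounded_lt.fix fun β rec => Order.succ (2 ^ (ℵ₀ + #M + sum fun a : Iio β => rec a a.2))

lemma nu_eq [WellFoundedLT M] (β : M) :
    nu M β = Order.succ (2 ^ (ℵ₀ + #M + sum fun a : Iio β => nu M a)) := by
  unfold nu
  rw [WellFounded.fix_eq]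

theorem main : ∃ V : Type, ℵ₀ ≤ #V ∧ ∀ d : V → V → ℕ, (∀ x y, d x y = d y x) →
    ∃ (i : ℕ) (W : Type) (_ : LinearOrder W) (_ : WellFoundedLT W) (g : W → V),
      Function.Injective g ∧ #V ≤ #W ∧ ∀ u v : W, u < v → ∃ w, u ≤ w ∧ w < v ∧ d (g w) (g v) = i := by
  let M := (ℵ_ 2 : Cardinal.{0}).ord.ToType
  have hM : ℵ₁ < Order.cof M := by
    rw [Ordinal.cof_toType]
    have : (ℵ_ 2 : Cardinal.{0}).IsRegular := by
      have := isRegular_aleph_add_one (1 : Ordinal.{0})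
      rwa [one_add_one_eq_two] at this
    rw [this.cof_ord]
    exact aleph_lt_aleph.mpr one_lt_two
  haveI : Nonempty M := Order.cof_ne_zero_iff.mp (ne_bot_of_gt hM)
  let V := Σ β : M, (nu M β).out
  have hlt : ∀ β, #{v : V | v.1 < β} = sum fun a : Iio β => nu M a := by
    intro β
    refine (mk_congr (Equiv.subtypeSigmaEquiv (fun β : M => (nu M β).out) (fun a => a < β))).trans ?_
    rw [mk_sigma]
    exact congrArg sum (funext fun a => mk_out _)
  have hbig : ∀ β, 2 ^ (ℵ₀ + #M + #{v : V | v.1 < β}) < nu M β := by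
    intro β
    rw [nu_eq, hlt]
    exact Order.lt_succ _
  have hle : ∀ β, ℵ₀ + #M + #{v : V | v.1 < β} ≤ nu M β := fun β =>
    ((cantor _).trans (hbig β)).le
  have hreg : ∀ β, (nu M β).IsRegular := by
    intro β
    rw [nu_eq]
    exact isRegular_succ ((le_self_add.trans le_self_add).trans (cantor _).le)
  have hν : ∀ β, nu M β ≤ #((Sigma.fst : V → M) ⁻¹' {β}) := by
    intro β
    rw [← mk_out (nu M β)]
    refine mk_le_of_injective (f := fun x => ⟨⟨β, x⟩, rfl⟩) ?_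
    intro x y h
    exact sigma_mk_injective (β := fun β : M => (nu M β).out) (congrArg Subtype.val h)
  refine ⟨V, ?_, fun d hd => ?_⟩
  · obtain ⟨β⟩ := ‹Nonempty M›
    exact ((hreg β).aleph0_le.trans (hν β)).trans (mk_set_le _)
  obtain ⟨A, e, hA1, hA2, hA3⟩ := canon (Sigma.fst : V → M) (nu M) hreg hν hbig d
  obtain ⟨i, ρ, h⟩ := comp hM e
  obtain ⟨W, _, _, f, h1, h2, h3⟩ := skeleton (Sigma.fst : V → M) (gr e i) ρ h
  have hemb : ∀ γ, Nonempty (f ⁻¹' {γ} ↪ A γ) := by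
    intro γ
    rw [← le_def]
    refine (h3 γ).trans (le_trans ?_ (hA2 γ))
    have h0 := (hreg γ).aleph0_le
    have h4 : #{v : V | v.1 < γ} + 1 + 1 ≤ nu M γ :=
      add_le_of_le h0 (add_le_of_le h0 (le_add_self.trans (hle γ)) (one_le_aleph0.trans h0))
        (one_le_aleph0.trans h0)
    exact mul_le_of_le h0 (mul_le_of_le h0 ((le_add_self.trans le_self_add).trans (hle γ)) h4) h0
  let em := fun γ => (hemb γ).some
  let g : W → V := fun w => em (f w) ⟨w, rfl⟩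
  have hg : ∀ w, g w ∈ A (f w) := fun w => (em (f w) ⟨w, rfl⟩).2
  have hg' : ∀ γ w (h : f w = γ), g w = em γ ⟨w, h⟩ := by
    rintro _ w rfl; rfl
  refine ⟨i, W, inferInstance, inferInstance, g, ?_, h1, fun u v huv => ?_⟩
  · intro w w' h
    have h4 : f w' = f w := by
      have h5 : (g w).1 = f w := hA1 _ (hg w)
      have h6 : (g w').1 = f w' := hA1 _ (hg w')
      rw [← h5, ← h6, h]
    rw [hg' (f w) w rfl, hg' (f w) w' h4] at h
    exact congrArg Subtype.val ((em (f w)).injective (Subtype.ext h))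
  · obtain ⟨w, h4, h5, h6⟩ := h2 u v huv
    refine ⟨w, h4, h5, ?_⟩
    rcases h6 with h6 | h6
    · rw [hA3 _ _ h6.1 _ (hg w) _ (hg v), h6.2]
    · rw [hd, hA3 _ _ h6.1 _ (hg v) _ (hg w), h6.2]

end Pool.Agent.H.MP_ebc4cb_lc
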